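import Pool.Agent.H76.MXT.Stmts

/-!
# Row ISO of the board `mxt`
-/

set_option autoImplicit false

namespace Pool.MXT

open Set

theorem iso_thm (hRCT : S_RCT) (hCUT : S_CUT) : S_ISO := by
  intro F a b c d x₀ y₀ δ hδ ha hb hc hd hF hz _
  have sub : ∀ a' b' c' d' : ℝ, a ≤ a' → b' ≤ b → c ≤ c' → d' ≤ d → Con F a' b' c' d' := by
    intro a' b' c' d' h1 h2 h3 h4
    exact hF.mono (Set.prod_mono (Icc_subset_Icc h1 h2) (Icc_subset_Icc h3 h4))
  -- a rectangle without the point has winding zero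
  have zero : ∀ a' b' c' d' : ℝ, a ≤ a' → b' ≤ b → c ≤ c' → d' ≤ d → a' ≤ b' → c' ≤ d' →
      (b' < x₀ ∨ x₀ < a' ∨ d' < y₀ ∨ y₀ < c') → wnd F a' b' c' d' = 0 := by
    intro a' b' c' d' h1 h2 h3 h4 h5 h6 h7
    refine hRCT F a' b' c' d' h5 h6 (sub a' b' c' d' h1 h2 h3 h4) ?_
    intro x hx y hy h
    obtain ⟨e1, e2⟩ := hz x ⟨h1.trans hx.1, hx.2.trans h2⟩ y ⟨h3.trans hy.1, hy.2.trans h4⟩ h
    subst e1 e2
    rcases h7 with h7 | h7 | h7 | h7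
    · exact absurd hx.2 (not_le.2 h7)
    · exact absurd hx.1 (not_le.2 h7)
    · exact absurd hy.2 (not_le.2 h7)
    · exact absurd hy.1 (not_le.2 h7)
  -- horizontal segments off the point
  have okx : ∀ a' b' y : ℝ, a ≤ a' → b' ≤ b → y ∈ Icc c d → y ≠ y₀ →
      Ok (fun x => F x y) a' b' := by
    intro a' b' y h1 h2 hy hy0
    refine ⟨?_, fun x hx h => hy0 (hz x ⟨h1.trans hx.1, hx.2.trans h2⟩ y hy h).2⟩
    have hc' : ContinuousOn (fun x : ℝ => (x, y)) (Icc a' b') := by fun_prop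
    exact ContinuousOn.comp (f := fun x : ℝ => (x, y))
      (g := fun p : ℝ × ℝ => F p.1 p.2) hF hc'
      (fun x hx => ⟨⟨h1.trans hx.1, hx.2.trans h2⟩, hy⟩)
  have oky : ∀ c' d' x : ℝ, c ≤ c' → d' ≤ d → x ∈ Icc a b → x ≠ x₀ →
      Ok (fun y => F x y) c' d' := by
    intro c' d' x h1 h2 hx hx0
    refine ⟨?_, fun y hy h => hx0 (hz x hx y ⟨h1.trans hy.1, hy.2.trans h2⟩ h).1⟩
    have hc' : ContinuousOn (fun y : ℝ => (x, y)) (Icc c' d') := by fun_prop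
    exact ContinuousOn.comp (f := fun y : ℝ => (x, y))
      (g := fun p : ℝ × ℝ => F p.1 p.2) hF hc'
      (fun y hy => ⟨hx, ⟨h1.trans hy.1, hy.2.trans h2⟩⟩)
  have e1 : wnd F a b c d = wnd F a (x₀ - δ) c d + wnd F (x₀ - δ) b c d :=
    (hCUT F a b c d (by linarith) (by linarith)).1 (x₀ - δ) ⟨by linarith, by linarith⟩
      (okx a b c le_rfl le_rfl ⟨le_rfl, by linarith⟩ (by linarith))
      (okx a b d le_rfl le_rfl ⟨by linarith, le_rfl⟩ (by linarith))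
  have e2 : wnd F (x₀ - δ) b c d = wnd F (x₀ - δ) (x₀ + δ) c d + wnd F (x₀ + δ) b c d :=
    (hCUT F (x₀ - δ) b c d (by linarith) (by linarith)).1 (x₀ + δ) ⟨by linarith, by linarith⟩
      (okx _ b c ha le_rfl ⟨le_rfl, by linarith⟩ (by linarith))
      (okx _ b d ha le_rfl ⟨by linarith, le_rfl⟩ (by linarith))
  have e3 : wnd F (x₀ - δ) (x₀ + δ) c d =
      wnd F (x₀ - δ) (x₀ + δ) c (y₀ - δ) + wnd F (x₀ - δ) (x₀ + δ) (y₀ - δ) d :=
    (hCUT F (x₀ - δ) (x₀ + δ) c d (by linarith) (by linarith)).2 (y₀ - δ)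
      ⟨by linarith, by linarith⟩
      (oky c d _ le_rfl le_rfl ⟨ha, by linarith⟩ (by linarith))
      (oky c d _ le_rfl le_rfl ⟨by linarith, hb⟩ (by linarith))
  have e4 : wnd F (x₀ - δ) (x₀ + δ) (y₀ - δ) d =
      wnd F (x₀ - δ) (x₀ + δ) (y₀ - δ) (y₀ + δ) + wnd F (x₀ - δ) (x₀ + δ) (y₀ + δ) d :=
    (hCUT F (x₀ - δ) (x₀ + δ) (y₀ - δ) d (by linarith) (by linarith)).2 (y₀ + δ)
      ⟨by linarith, by linarith⟩
      (oky _ d _ hc le_rfl ⟨ha, by linarith⟩ (by linarith))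
      (oky _ d _ hc le_rfl ⟨by linarith, hb⟩ (by linarith))
  have z1 : wnd F a (x₀ - δ) c d = 0 :=
    zero _ _ _ _ le_rfl (by linarith) le_rfl le_rfl ha (by linarith) (Or.inl (by linarith))
  have z2 : wnd F (x₀ + δ) b c d = 0 :=
    zero _ _ _ _ (by linarith) le_rfl le_rfl le_rfl hb (by linarith)
      (Or.inr (Or.inl (by linarith)))
  have z3 : wnd F (x₀ - δ) (x₀ + δ) c (y₀ - δ) = 0 :=
    zero _ _ _ _ ha hb le_rfl (by linarith) (by linarith) hc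
      (Or.inr (Or.inr (Or.inl (by linarith))))
  have z4 : wnd F (x₀ - δ) (x₀ + δ) (y₀ + δ) d = 0 :=
    zero _ _ _ _ ha hb (by linarith) le_rfl (by linarith) hd
      (Or.inr (Or.inr (Or.inr (by linarith))))
  rw [e1, e2, e3, e4, z1, z2, z3, z4]
  ring

end Pool.MXT
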